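import Pool.Agent.VFS.FIN
import Pool.Agent.VFS.BCD
import Pool.Agent.VFS.FMO
import Pool.Agent.VFS.FUS
import Pool.Agent.VFS.GEN
import Pool.Agent.VFS.DFN
import Pool.Agent.VFS.LES
import Pool.Agent.VFS.BAI
import Pool.Agent.VFS.FSI
import Pool.Agent.VFS.FSB

/-!
# Vaught's conjecture for `F_σ` classes and a locally finite generalisation

Let `L` be a countable relational language (any arities) and `K` an isomorphism invariant set of
`L`-structures on `ℕ`. If `K` is an `F_σ` set in the logic topology, then `K` has countably many or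
perfectly many isomorphism types (first part of `result`, `fsigma`). The second part of `result`
(`general`) is more general: `K` is Borel, `g` is a set of binary symbols such that in the members of
`K` only finitely many elements are reached from an element by steps `a → b`, `R(a, b)`, `R ∈ g`, and
an `F_σ` condition is required only for the substructures which are closed under steps.
-/

set_option autoImplicit false

namespace Pool.Agent.Helper97.Old.FSigmaClasses

open Set VFS
open scoped Topology

/-- The dichotomy for a set `K` of structures on `ℕ` in a relational language: countably many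
isomorphism types, or a map from Cantor space to `K` with clopen atomic facts and pairwise
non-isomorphic values. -/
def Dich {L : FirstOrder.Language.{0, 0}} (K : Set (L.Structure ℕ)) : Prop :=
  (∃ e : ℕ → L.Structure ℕ, ∀ S ∈ K,
      ∃ n : ℕ, Nonempty (@FirstOrder.Language.Equiv L ℕ ℕ S (e n))) ∨
  (∃ f : (ℕ → Bool) → L.Structure ℕ, (∀ x : ℕ → Bool, f x ∈ K) ∧
      (∀ x y : ℕ → Bool, Nonempty (@FirstOrder.Language.Equiv L ℕ ℕ (f x) (f y)) → x = y) ∧
      (∀ (n : ℕ) (R : L.Relations n) (a : Fin n → ℕ),
        IsClopen {x : ℕ → Bool | @FirstOrder.Language.Structure.RelMap L ℕ (f x) n R a}))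

/-- the logic topology: it is generated by the sets `{S : R(a)}` and `{S : ¬ R(a)}` -/
@[instance_reducible]
def logicTop (L : FirstOrder.Language.{0, 0}) : TopologicalSpace (L.Structure ℕ) :=
  TopologicalSpace.generateFrom {A : Set (L.Structure ℕ) |
    ∃ (n : ℕ) (R : L.Relations n) (a : Fin n → ℕ),
      A = {S : L.Structure ℕ | S.RelMap R a} ∨ A = {S : L.Structure ℕ | ¬ S.RelMap R a}}

/-- Vaught's conjecture (perfect set form) for invariant Borel classes with an `F_σ` closure
condition. `L` is a countable relational language, `K` an isomorphism invariant Borel set of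
`L`-structures on `ℕ`, `g` a set of binary symbols. A step leads from `a` to `b` if `R(a, b)` for some
`R ∈ g`. Hypotheses: in every member of `K` only finitely many elements are reached from an element;
for every `S ∈ K` the set of the injections `f` with range closed under steps along which `S`
induces a member of `K` contains an `F_σ` set (relative to the set of all injections with closed
range) which contains all permutations. -/
theorem general (L : FirstOrder.Language.{0, 0}) (hc : Countable L.Symbols)
    (hrel : ∀ n, IsEmpty (L.Functions n)) (g : Set (L.Relations 2)) (K : Set (L.Structure ℕ))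
    (hB : Bor K) (hI : VFS.Inv K)
    (hf : ∀ S ∈ K, ∀ x : ℕ,
      {y | Relation.ReflTransGen (fun a b => ∃ R ∈ g, S.RelMap R ![a, b]) x y}.Finite)
    (hF : ∀ S ∈ K, ∃ C : ℕ → Set (ℕ → ℕ), (∀ i, IsClosed (C i)) ∧
      (∀ f : ℕ → ℕ, Function.Bijective f → ∃ i, f ∈ C i) ∧
      ∀ i, ∀ f ∈ C i, f ∈ InjC S g → ∀ S' : L.Structure ℕ, Ind S f S' → S' ∈ K) :
    Dich K :=
  FIN_sub (thm_LES thm_BCD (thm_GEN thm_FMO thm_FUS) thm_DFN) (thm_BAI thm_FUS) hc hrel g K hB hI
    hf hF

theorem finite_part {L : FirstOrder.Language.{0, 0}} {U : Set (L.Structure ℕ)}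
    (hU : IsOpen[logicTop L] U) {S : L.Structure ℕ} (hS : S ∈ U) :
    ∃ Φ : Finset ((n : ℕ) × (L.Relations n × (Fin n → ℕ))), ∀ S' : L.Structure ℕ,
      (∀ r ∈ Φ, (S'.RelMap r.2.1 r.2.2 ↔ S.RelMap r.2.1 r.2.2)) → S' ∈ U := by
  classical
  have h : TopologicalSpace.GenerateOpen {A : Set (L.Structure ℕ) |
    ∃ (n : ℕ) (R : L.Relations n) (a : Fin n → ℕ),
      A = {S : L.Structure ℕ | S.RelMap R a} ∨ A = {S : L.Structure ℕ | ¬ S.RelMap R a}} U := hU
  clear hU
  induction h with
  | basic A hA =>
    obtain ⟨n, R, a, h1 | h1⟩ := hA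
    · subst h1
      refine ⟨{⟨n, R, a⟩}, fun S' h2 => ?_⟩
      exact (h2 ⟨n, R, a⟩ (Finset.mem_singleton_self _)).2 hS
    · subst h1
      refine ⟨{⟨n, R, a⟩}, fun S' h2 => ?_⟩
      exact fun h3 => hS ((h2 ⟨n, R, a⟩ (Finset.mem_singleton_self _)).1 h3)
  | univ => exact ⟨∅, fun _ _ => mem_univ _⟩
  | inter A B hA hB ihA ihB =>
    obtain ⟨Φ, h1⟩ := ihA hS.1
    obtain ⟨Ψ, h2⟩ := ihB hS.2
    exact ⟨Φ ∪ Ψ, fun S' h3 => ⟨h1 S' fun r hr => h3 r (Finset.mem_union_left _ hr),
      h2 S' fun r hr => h3 r (Finset.mem_union_right _ hr)⟩⟩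
  | sUnion 𝒜 h𝒜 ih =>
    obtain ⟨A, hA, hSA⟩ := hS
    obtain ⟨Φ, h1⟩ := ih A hA hSA
    exact ⟨Φ, fun S' h2 => ⟨A, hA, h1 S' h2⟩⟩

/-- Vaught's conjecture (perfect set form) for all isomorphism invariant `F_σ` sets of
structures, in all countable relational languages. -/
theorem fsigma (L : FirstOrder.Language.{0, 0}) (hc : Countable L.Symbols)
    (hrel : ∀ n, IsEmpty (L.Functions n)) (K : Set (L.Structure ℕ)) (hI : VFS.Inv K)
    (A : ℕ → Set (L.Structure ℕ)) (hA : ∀ i, IsClosed[logicTop L] (A i)) (hK : K = ⋃ i, A i) :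
    Dich K := by
  have hR : ∀ n, Countable (L.Relations n) := fun n =>
    Function.Injective.countable (f := fun R : L.Relations n => (Sum.inr ⟨n, R⟩ : L.Symbols))
      (fun R R' h => by simpa using h)
  have h1 : ∀ i, ∀ S : L.Structure ℕ, (∀ Φ : Finset ((n : ℕ) × (L.Relations n × (Fin n → ℕ))),
      ∃ S' ∈ A i, ∀ r ∈ Φ, (S'.RelMap r.2.1 r.2.2 ↔ S.RelMap r.2.1 r.2.2)) → S ∈ A i := by
    intro i S h2
    by_contra h3
    have h4 : IsOpen[logicTop L] (A i)ᶜ := (@isOpen_compl_iff _ (A i) (logicTop L)).2 (hA i)
    obtain ⟨Φ, h5⟩ := finite_part h4 h3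
    obtain ⟨S', h6, h7⟩ := h2 Φ
    exact h5 S' h7 h6
  refine general L hc hrel ∅ K (thm_FSB L K A hK h1) hI (fun S _ x => ?_)
    fun S hS => thm_FSI L K A ∅ S hI hK h1 hS
  refine (finite_singleton x).subset fun y hy => ?_
  have h2 : ∀ z, Relation.ReflTransGen (fun a b => ∃ R ∈ (∅ : Set (L.Relations 2)),
      S.RelMap R ![a, b]) x z → z = x := by
    intro z hz
    induction hz with
    | refl => rfl
    | tail _ h3 _ => exact absurd h3.choose_spec.1 (notMem_empty _)
  exact h2 y hy

/-- **Vaught's conjecture (perfect set form) for invariant `F_σ` classes of structures.** `L` is a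
countable relational language, `K` an isomorphism invariant set of `L`-structures on `ℕ`. First part:
the dichotomy, if `K` is an `F_σ` set in the logic topology. Second part: the dichotomy, if `K` is
Borel and `g` is a set of binary symbols with the following properties. A step leads from `a` to `b`
if `R(a, b)` for some `R ∈ g`. In every member of `K` only finitely many elements are reached from an
element by steps. For every `S ∈ K` the set of the injections `f` with range closed under steps along
which `S` induces a member of `K` contains an `F_σ` set (relative to the set of all injections with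
closed range) which contains all permutations. -/
theorem result (L : FirstOrder.Language.{0, 0}) (hc : Countable L.Symbols)
    (hrel : ∀ n, IsEmpty (L.Functions n)) (K : Set (L.Structure ℕ)) (hI : VFS.Inv K) :
    (∀ A : ℕ → Set (L.Structure ℕ), (∀ i, IsClosed[logicTop L] (A i)) → K = ⋃ i, A i → Dich K) ∧
    (∀ g : Set (L.Relations 2), Bor K →
      (∀ S ∈ K, ∀ x : ℕ,
        {y | Relation.ReflTransGen (fun a b => ∃ R ∈ g, S.RelMap R ![a, b]) x y}.Finite) →
      (∀ S ∈ K, ∃ C : ℕ → Set (ℕ → ℕ), (∀ i, IsClosed (C i)) ∧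
        (∀ f : ℕ → ℕ, Function.Bijective f → ∃ i, f ∈ C i) ∧
        ∀ i, ∀ f ∈ C i, f ∈ InjC S g → ∀ S' : L.Structure ℕ, Ind S f S' → S' ∈ K) →
      Dich K) :=
  ⟨fun A hA hK => fsigma L hc hrel K hI A hA hK,
    fun g hB hf hF => general L hc hrel g K hB hI hf hF⟩

end Pool.Agent.Helper97.Old.FSigmaClasses
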