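import Pool.Agent.HEC.ALLC

/-!
# Vaught's conjecture for classes closed under substructures closed for a locally finite closure

For every countable relational language `L` (no bound on the arities), every set `g` of binary
symbols, every first-order theory `T` and every sentence `φ` of `L_{omega_1, omega}`: assume that in
every model on `ℕ` only finitely many elements are reached from an element by steps `a → b` with
`R(a, b)`, `R ∈ g`, and that the models are closed, up to a finite set, under infinite
substructures which are closed under the steps. Then the models on `ℕ` fall into countably many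
isomorphism types or there are perfectly many of them. For `g = ∅` these are the hereditary
classes; graphs of unary functions are another example.
-/

set_option autoImplicit false

namespace Pool.Agent.Results.MP_5df2c5_lc.LocallyFiniteHereditary

open Pool.Agent.Helper5.DU Pool.Agent.Helper6.Str Pool.Agent.Helper79.VC Pool.Agent.Helper6.VC

/-- **Vaught's conjecture (perfect set form) for classes which are hereditary for a locally finite
closure.** A step leads from `a` to `b` if `R(a, b)` holds for some `R ∈ g`. The hypothesis `hf`
says that from every element of a model only finitely many elements are reached by finitely many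
steps. The hypothesis `h` says: every model `S` on `ℕ` has a finite set `F` such that the structure
induced by `S` along any injection `f : ℕ → ℕ` whose range contains `F` and is closed under steps
is a model. -/
theorem result (L : FirstOrder.Language.{0, 0}) (hc : Countable L.Symbols)
    (hrel : ∀ n, IsEmpty (L.Functions n)) (g : Set (L.Relations 2)) (T : L.Theory) (φ : FmI L 0)
    (hf : ∀ S : L.Structure ℕ, IsMod T φ S → ∀ x : ℕ,
      {y | Relation.ReflTransGen (fun a b => ∃ R ∈ g, S.RelMap R ![a, b]) x y}.Finite)
    (h : ∀ S : L.Structure ℕ, IsMod T φ S → ∃ F : Set ℕ, F.Finite ∧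
      ∀ (f : ℕ → ℕ) (S' : L.Structure ℕ), Function.Injective f → F ⊆ Set.range f →
        (∀ a ∈ Set.range f, ∀ b, ∀ R ∈ g, S.RelMap R ![a, b] → b ∈ Set.range f) →
        (∀ (n : ℕ) (R : L.Relations n) (v : Fin n → ℕ),
          S'.RelMap R v ↔ S.RelMap R (fun i => f (v i))) → IsMod T φ S') :
    (∃ e : ℕ → L.Structure ℕ, ∀ S : L.Structure ℕ, IsMod T φ S →
        ∃ n : ℕ, Nonempty (@FirstOrder.Language.Equiv L ℕ ℕ S (e n))) ∨
    (∃ f : (ℕ → Bool) → L.Structure ℕ, (∀ x : ℕ → Bool, IsMod T φ (f x)) ∧
        (∀ x y : ℕ → Bool,
            Nonempty (@FirstOrder.Language.Equiv L ℕ ℕ (f x) (f y)) → x = y) ∧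
        (∀ (n : ℕ) (R : L.Relations n) (a : Fin n → ℕ),
            IsClopen {x : ℕ → Bool | @FirstOrder.Language.Structure.RelMap L ℕ (f x) n R a})) :=
  HEC.dichotomy_of_mnc HEC.all_MNC hc hrel g T φ hf h

end Pool.Agent.Results.MP_5df2c5_lc.LocallyFiniteHereditary
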