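import Pool.Agent.UFS.ALL

/-!
# Vaught's conjecture for invariant `F_σ` classes of structures with unary functions

Let `L` be a countable language with relation symbols of all arities, constants and unary function
symbols, and let `K` be an isomorphism invariant set of `L`-structures on `ℕ`. If `K` is an `F_σ` set
in the logic topology, then `K` has countably many or perfectly many isomorphism types.
-/

set_option autoImplicit false

namespace Pool.Agent.Results.MP_5df2c5_lc.UnaryFSigma

open Set
open scoped Topology

/-- the logic topology on the structures on `ℕ`: it is generated by the sets `{S : R(a)}`,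
`{S : ¬ R(a)}` and `{S : F(a) = b}` -/
@[instance_reducible]
def logicTop (L : FirstOrder.Language.{0, 0}) : TopologicalSpace (L.Structure ℕ) :=
  TopologicalSpace.generateFrom {A : Set (L.Structure ℕ) |
    (∃ (n : ℕ) (R : L.Relations n) (a : Fin n → ℕ),
      A = {S : L.Structure ℕ | S.RelMap R a} ∨ A = {S : L.Structure ℕ | ¬ S.RelMap R a}) ∨
    ∃ (n : ℕ) (F : L.Functions n) (a : Fin n → ℕ) (b : ℕ),
      A = {S : L.Structure ℕ | S.funMap F a = b}}

/-- `K` is closed under isomorphism. -/
def Inv {L : FirstOrder.Language.{0, 0}} (K : Set (L.Structure ℕ)) : Prop :=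
  ∀ S S' : L.Structure ℕ, Nonempty (@FirstOrder.Language.Equiv L ℕ ℕ S S') → S ∈ K → S' ∈ K

/-- The dichotomy for a set `K` of structures on `ℕ`: countably many isomorphism types, or a map from
Cantor space to `K` with clopen atomic facts and pairwise non-isomorphic values. -/
def Dich {L : FirstOrder.Language.{0, 0}} (K : Set (L.Structure ℕ)) : Prop :=
  (∃ g : ℕ → L.Structure ℕ, ∀ S ∈ K,
      ∃ n : ℕ, Nonempty (@FirstOrder.Language.Equiv L ℕ ℕ S (g n))) ∨
  (∃ f : (ℕ → Bool) → L.Structure ℕ, (∀ x : ℕ → Bool, f x ∈ K) ∧
      (∀ x y : ℕ → Bool, Nonempty (@FirstOrder.Language.Equiv L ℕ ℕ (f x) (f y)) → x = y) ∧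
      (∀ (n : ℕ) (R : L.Relations n) (a : Fin n → ℕ),
        IsClopen {x : ℕ → Bool | @FirstOrder.Language.Structure.RelMap L ℕ (f x) n R a}) ∧
      (∀ (n : ℕ) (F : L.Functions n) (a : Fin n → ℕ) (b : ℕ),
        IsClopen {x : ℕ → Bool | @FirstOrder.Language.Structure.funMap L ℕ (f x) n F a = b}))

/-- **Vaught's conjecture (perfect set form) for invariant `F_σ` classes of structures with unary
functions.** `L` is a countable language without function symbols of arity `≥ 2` (relation symbols of
all arities, constants, unary function symbols), `K` is an isomorphism invariant set of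
`L`-structures on `ℕ`, and `K` is the union of countably many closed sets of the logic topology. Then
`K` has countably many or perfectly many isomorphism types. -/
theorem result (L : FirstOrder.Language.{0, 0}) (hc : Countable L.Symbols)
    (h2 : ∀ n, IsEmpty (L.Functions (n + 2))) (K : Set (L.Structure ℕ)) (hI : Inv K)
    (A : ℕ → Set (L.Structure ℕ)) (hA : ∀ i, IsClosed[logicTop L] (A i)) (hK : K = ⋃ i, A i) :
    Dich K :=
  UFS.all_FSU L hc h2 K A hI hA hK

end Pool.Agent.Results.MP_5df2c5_lc.UnaryFSigma
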